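import Pool.Agent.Helper59.TDM.Gad

/-!
# Perfect matchings of the gadget: they read the choice
-/

namespace Pool.TDM

section cyc

variable {l B : ℕ} [NeZero l]

/-- the cyclic permutation of the ring positions -/
noncomputable def nxt : Equiv.Perm (RP l B) := (exists_cyc (bit : RP l B → Fin l)).choose

theorem bit_nxt (p : RP l B) : bit (nxt p) = bit p :=
  (exists_cyc (bit : RP l B → Fin l)).choose_spec.1 p

theorem nxt_closed (U : RP l B → Prop) (hU : ∀ p, U p → U (nxt p)) (p q : RP l B)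
    (h : bit p = bit q) (hp : U p) : U q :=
  (exists_cyc (bit : RP l B → Fin l)).choose_spec.2 U hU p q h hp

end cyc

variable {D l B G r : ℕ} [NeZero l]

/-- the three vertices of a triple -/
noncomputable def tri : Tri D l B G r → VA D l B G r × VA D l B G r × VC D l B r
  | .X h p e => (.core h (if e then nxt p else p), .core h p, .tip h p e)
  | .L h a i => (.leaf h a, .leaf h a, .tip h (pos a i) (a i))
  | .F (b, false) a => (.fil b, .leaf (b, false) a, .fc (b, false))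
  | .F (b, true) a => (.leaf (b, true) a, .fil b, .fc (b, true))
  | .G h k p e => (.garb h k, .garb h k, .tip h p e)
  | .U x => (.dum x, .dum x, .dum x)
  | .Y b a a' => (.leaf (b, false) a, .leaf (b, true) a', .gam b)

theorem tri_injective : Function.Injective (tri : Tri D l B G r → _) := by
  rintro g g' h
  rcases g with ⟨h1, p1, e1⟩ | ⟨h1, a1, i1⟩ | ⟨⟨b1, s1⟩, a1⟩ | ⟨h1, k1, p1, e1⟩ | ⟨x1⟩ | ⟨b1, a1, a1'⟩ <;>
  rcases g' with ⟨h2, p2, e2⟩ | ⟨h2, a2, i2⟩ | ⟨⟨b2, s2⟩, a2⟩ | ⟨h2, k2, p2, e2⟩ | ⟨x2⟩ | ⟨b2, a2, a2'⟩ <;>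
  (try cases s1) <;> (try cases s2) <;> simp [tri] at h ⊢
  · exact h.2.2
  · obtain ⟨⟨rfl, rfl⟩, -, h3, -⟩ := h
    have := congrArg bit h3
    rw [bit_pos, bit_pos] at this
    exact ⟨rfl, rfl, this⟩
  · exact h.2.1
  · exact h.1
  · exact ⟨h.1.1, h.1.2, h.2.2⟩
  · exact h
  · exact ⟨h.1.1, h.1.2, h.2.1.2⟩

/-- A set of triples which covers every vertex exactly once and contains only the `Y` triples of the choice `c`. -/
structure Cover (c : HB D → BT l) (W : Tri D l B G r → Prop) : Prop where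
  allowed : ∀ b a a', W (.Y b a a') → a = c (b, false) ∧ a' = c (b, true)
  ex1 : ∀ x, ∃ g, W g ∧ (tri g).1 = x
  ex2 : ∀ y, ∃ g, W g ∧ (tri g).2.1 = y
  ex3 : ∀ z, ∃ g, W g ∧ (tri g).2.2 = z
  un1 : ∀ g g', W g → W g' → (tri g).1 = (tri g').1 → g = g'
  un3 : ∀ g g', W g → W g' → (tri g).2.2 = (tri g').2.2 → g = g'

theorem Cover.mainY {c : HB D → BT l} {W : Tri D l B G r → Prop} (hW : Cover c W) (b : Fin D) :
    W (.Y b (c (b, false)) (c (b, true))) := by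
  obtain ⟨g, hg, hz⟩ := hW.ex3 (.gam b)
  rcases g with ⟨h1, p1, e1⟩ | ⟨h1, a1, i1⟩ | ⟨⟨b1, _ | _⟩, a1⟩ | ⟨h1, k1, p1, e1⟩ | ⟨x1⟩ | ⟨b1, a1, a1'⟩ <;>
    simp [tri] at hz
  subst hz
  obtain ⟨h1, h2⟩ := hW.allowed _ _ _ hg
  rw [h1, h2] at hg
  exact hg

theorem Cover.mainX {c : HB D → BT l} {W : Tri D l B G r → Prop} (hW : Cover c W) (h : HB D)
    (p : RP l B) : W (.X h p (c h (bit p))) := by
  have hX : ∀ p : RP l B, ∃ e, W (.X h p e) := by
    intro p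
    obtain ⟨g, hg, hz⟩ := hW.ex2 (.core h p)
    rcases g with ⟨h1, p1, e1⟩ | ⟨h1, a1, i1⟩ | ⟨⟨b1, _ | _⟩, a1⟩ | ⟨h1, k1, p1, e1⟩ | ⟨x1⟩ | ⟨b1, a1, a1'⟩ <;>
      simp [tri] at hz
    obtain ⟨rfl, rfl⟩ := hz
    exact ⟨e1, hg⟩
  choose s hs using hX
  have hstep : ∀ p : RP l B, s p = true → s (nxt p) = true := by
    intro p hp
    by_contra hn
    rw [Bool.not_eq_true] at hn
    have h1 := hs p
    have h2 := hs (nxt p)
    rw [hp] at h1
    rw [hn] at h2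
    have h3 := hW.un1 _ _ h1 h2 (by simp [tri])
    simp at h3
  have hconst : ∀ p q : RP l B, bit p = bit q → s p = s q := by
    intro p q hpq
    rw [Bool.eq_iff_iff]
    exact ⟨nxt_closed _ hstep p q hpq, nxt_closed _ hstep q p hpq.symm⟩
  have hleaf : ∀ a : BT l, a ≠ c h → ∃ i : Fin l, W (.L h a i) := by
    intro a ha
    obtain ⟨b, hb⟩ := h
    cases hb
    · obtain ⟨g, hg, hz⟩ := hW.ex1 (.leaf (b, false) a)
      rcases g with ⟨h1, p1, e1⟩ | ⟨h1, a1, i1⟩ | ⟨⟨b1, _ | _⟩, a1⟩ | ⟨h1, k1, p1, e1⟩ | ⟨x1⟩ | ⟨b1, a1, a1'⟩ <;>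
        simp [tri] at hz
      · obtain ⟨rfl, rfl⟩ := hz
        exact ⟨i1, hg⟩
      · obtain ⟨rfl, rfl⟩ := hz
        exact absurd (hW.allowed _ _ _ hg).1 ha
    · obtain ⟨g, hg, hz⟩ := hW.ex2 (.leaf (b, true) a)
      rcases g with ⟨h1, p1, e1⟩ | ⟨h1, a1, i1⟩ | ⟨⟨b1, _ | _⟩, a1⟩ | ⟨h1, k1, p1, e1⟩ | ⟨x1⟩ | ⟨b1, a1, a1'⟩ <;>
        simp [tri] at hz
      · obtain ⟨rfl, rfl⟩ := hz
        exact ⟨i1, hg⟩
      · obtain ⟨rfl, rfl⟩ := hz
        exact absurd (hW.allowed _ _ _ hg).2 ha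
  have hdiff : ∀ a : BT l, a ≠ c h → ∃ i : Fin l, s (pos a i) ≠ a i := by
    intro a ha
    obtain ⟨i, hi⟩ := hleaf a ha
    refine ⟨i, fun he => ?_⟩
    have h1 := hs (pos a i)
    have h2 := hW.un3 _ _ hi h1 (by simp [tri, he])
    simp at h2
  have hst : (fun i => s (pos (c h) i)) = c h := by
    by_contra hne
    obtain ⟨i, hi⟩ := hdiff _ hne
    apply hi
    apply hconst
    rw [bit_pos, bit_pos]
  have h1 : s p = c h (bit p) := by
    rw [← congrFun hst (bit p)]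
    apply hconst
    rw [bit_pos]
  rw [← h1]
  exact hs p

end Pool.TDM
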