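import Pool.Agent.Helper59.TDM.Ex

/-!
# The gadget inside the complete tripartite hypergraph with parts of size `N`
-/

namespace Pool.TDM

/-- The 3-dimensional matching property: the set `S` of triples of `Fin N` contains `N` triples which are pairwise
disjoint in every coordinate. -/
def HasPM (N : ℕ) (S : Set (Fin N × Fin N × Fin N)) : Prop :=
  ∃ σ τ : Equiv.Perm (Fin N), ∀ x, (x, σ x, τ x) ∈ S

theorem HasPM.mono {N : ℕ} {S S' : Set (Fin N × Fin N × Fin N)} (h : HasPM N S) (hS : S ⊆ S') : HasPM N S' := by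
  obtain ⟨σ, τ, h⟩ := h
  exact ⟨σ, τ, fun x => hS (h x)⟩

/-- only the `Y` triples of the choice `c` -/
def Allowed {D l B G r : ℕ} (c : HB D → BT l) : Tri D l B G r → Prop
  | .Y b a a' => a = c (b, false) ∧ a' = c (b, true)
  | _ => True

theorem gadget (D l B N : ℕ) [NeZero l] (hN : D * (4 * (l * B) + 4 * 2 ^ l + 3) ≤ N) :
    ∃ t : Tri D l B (l * B + 1) (N - D * (4 * (l * B) + 4 * 2 ^ l + 3)) → Fin N × Fin N × Fin N,
      Function.Injective t ∧
      (∀ (c : HB D → BT l) (S : Set (Fin N × Fin N × Fin N)),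
        (∀ x ∈ S, ∃ g, Allowed c g ∧ t g = x) → HasPM N S →
        (∀ b, t (.Y b (c (b, false)) (c (b, true))) ∈ S) ∧ ∀ h p, t (.X h p (c h (bit p))) ∈ S) ∧
      (∀ c : HB D → BT l, ∃ S : Set (Fin N × Fin N × Fin N), HasPM N S ∧
        (∀ x ∈ S, ∃ g, Good c g ∧ t g = x) ∧ ∀ S' ⊆ S, HasPM N S' → S' = S) := by
  classical
  set r := N - D * (4 * (l * B) + 4 * 2 ^ l + 3) with hr
  have hcA : Fintype.card (VA D l B (l * B + 1) r) = N := by
    rw [card_VA']
    omega
  have hcC : Fintype.card (VC D l B r) = N := by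
    rw [card_VC]
    omega
  let eA : VA D l B (l * B + 1) r ≃ Fin N := Fintype.equivFinOfCardEq hcA
  let eC : VC D l B r ≃ Fin N := Fintype.equivFinOfCardEq hcC
  let t : Tri D l B (l * B + 1) r → Fin N × Fin N × Fin N := fun g =>
    (eA (tri g).1, eA (tri g).2.1, eC (tri g).2.2)
  have ht : Function.Injective t := by
    intro g g' h
    apply tri_injective
    simp only [t, Prod.mk.injEq, EmbeddingLike.apply_eq_iff_eq] at h
    exact Prod.ext h.1 (Prod.ext h.2.1 h.2.2)
  refine ⟨t, ht, ?_, ?_⟩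
  · rintro c S hS ⟨σ, τ, hPM⟩
    let W : Tri D l B (l * B + 1) r → Prop := fun g => Allowed c g ∧ ∃ x, t g = (x, σ x, τ x)
    have hW : Cover c W := by
      refine ⟨?_, ?_, ?_, ?_, ?_, ?_⟩
      · rintro b a a' ⟨h1, -⟩
        exact h1
      · intro x
        obtain ⟨g, hg, hx⟩ := hS _ (hPM (eA x))
        refine ⟨g, ⟨hg, _, hx⟩, ?_⟩
        have := congrArg Prod.fst hx
        exact eA.injective this
      · intro y
        obtain ⟨g, hg, hx⟩ := hS _ (hPM (σ.symm (eA y)))
        refine ⟨g, ⟨hg, _, hx⟩, ?_⟩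
        have := congrArg (fun z => z.2.1) hx
        simp only [Equiv.apply_symm_apply] at this
        exact eA.injective this
      · intro z
        obtain ⟨g, hg, hx⟩ := hS _ (hPM (τ.symm (eC z)))
        refine ⟨g, ⟨hg, _, hx⟩, ?_⟩
        have := congrArg (fun z => z.2.2) hx
        simp only [Equiv.apply_symm_apply] at this
        exact eC.injective this
      · rintro g g' ⟨-, x, hx⟩ ⟨-, x', hx'⟩ h
        have h1 : x = x' := by
          have h2 := congrArg Prod.fst hx
          have h3 := congrArg Prod.fst hx'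
          simp only [t] at h2 h3
          rw [← h2, ← h3, h]
        subst h1
        exact ht (hx.trans hx'.symm)
      · rintro g g' ⟨-, x, hx⟩ ⟨-, x', hx'⟩ h
        have h1 : x = x' := by
          have h2 := congrArg (fun z => z.2.2) hx
          have h3 := congrArg (fun z => z.2.2) hx'
          simp only [t] at h2 h3
          apply τ.injective
          rw [← h2, ← h3, h]
        subst h1
        exact ht (hx.trans hx'.symm)
    refine ⟨fun b => ?_, fun h p => ?_⟩
    · obtain ⟨-, x, hx⟩ := hW.mainY b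
      rw [hx]
      exact hPM x
    · obtain ⟨-, x, hx⟩ := hW.mainX h p
      rw [hx]
      exact hPM x
  · intro c
    obtain ⟨F, hF1, hF2, hF3, hF4⟩ := exists_cover (r := r) c
    let σ : Equiv.Perm (Fin N) := eA.symm.trans ((Equiv.ofBijective _ hF2).trans eA)
    let τ : Equiv.Perm (Fin N) := eA.symm.trans ((Equiv.ofBijective _ hF3).trans eC)
    have hσ : ∀ x, t (F (eA.symm x)) = (x, σ x, τ x) := by
      intro x
      simp only [t, σ, τ, hF1, Equiv.apply_symm_apply, Equiv.trans_apply, Equiv.ofBijective_apply]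
    refine ⟨Set.range fun x => (x, σ x, τ x), ⟨σ, τ, fun x => ⟨x, rfl⟩⟩, ?_, ?_⟩
    · rintro _ ⟨x, rfl⟩
      exact ⟨F (eA.symm x), hF4 _, hσ x⟩
    · rintro S' hS' ⟨σ', τ', h'⟩
      apply Set.Subset.antisymm hS'
      rintro _ ⟨x, rfl⟩
      obtain ⟨y, hy⟩ := hS' (h' x)
      simp only [Prod.mk.injEq] at hy
      obtain ⟨h1, h2, h3⟩ := hy
      subst h1
      have := h' y
      rw [← h2, ← h3] at this
      exact this

end Pool.TDM
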