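import Pool.Agent.Helper59.TDM.Cov

/-!
# The gadget has a perfect matching for every choice
-/

namespace Pool.TDM

section card

variable (D l B G r : ℕ)

def VA.equiv : VA D l B G r ≃
    (HB D × RP l B) ⊕ ((HB D × BT l) ⊕ ((HB D × Fin G) ⊕ (Fin D ⊕ Fin r))) where
  toFun
    | .core h p => Sum.inl (h, p)
    | .leaf h a => Sum.inr (Sum.inl (h, a))
    | .garb h k => Sum.inr (Sum.inr (Sum.inl (h, k)))
    | .fil b => Sum.inr (Sum.inr (Sum.inr (Sum.inl b)))
    | .dum x => Sum.inr (Sum.inr (Sum.inr (Sum.inr x)))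
  invFun
    | Sum.inl (h, p) => .core h p
    | Sum.inr (Sum.inl (h, a)) => .leaf h a
    | Sum.inr (Sum.inr (Sum.inl (h, k))) => .garb h k
    | Sum.inr (Sum.inr (Sum.inr (Sum.inl b))) => .fil b
    | Sum.inr (Sum.inr (Sum.inr (Sum.inr x))) => .dum x
  left_inv x := by cases x <;> rfl
  right_inv x := by rcases x with ⟨h, p⟩ | ⟨h, a⟩ | ⟨h, k⟩ | b | x <;> rfl

def VC.equiv : VC D l B r ≃
    (HB D × RP l B × Bool) ⊕ (HB D ⊕ (Fin D ⊕ Fin r)) where
  toFun
    | .tip h p e => Sum.inl (h, p, e)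
    | .fc h => Sum.inr (Sum.inl h)
    | .gam b => Sum.inr (Sum.inr (Sum.inl b))
    | .dum x => Sum.inr (Sum.inr (Sum.inr x))
  invFun
    | Sum.inl (h, p, e) => .tip h p e
    | Sum.inr (Sum.inl h) => .fc h
    | Sum.inr (Sum.inr (Sum.inl b)) => .gam b
    | Sum.inr (Sum.inr (Sum.inr x)) => .dum x
  left_inv x := by cases x <;> rfl
  right_inv x := by rcases x with ⟨h, p, e⟩ | h | b | x <;> rfl

instance : Fintype (VA D l B G r) := Fintype.ofEquiv _ (VA.equiv D l B G r).symm
instance : Fintype (VC D l B r) := Fintype.ofEquiv _ (VC.equiv D l B r).symm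

theorem card_VA : Fintype.card (VA D l B G r) = D * (2 * (l * B) + 4 * 2 ^ l + 2 * G + 1) + r := by
  rw [Fintype.card_congr (VA.equiv D l B G r)]
  simp only [Fintype.card_sum, Fintype.card_prod, Fintype.card_fin, Fintype.card_bool,
    Fintype.card_fun]
  ring

theorem card_VC : Fintype.card (VC D l B r) = D * (4 * (l * B) + 4 * 2 ^ l + 3) + r := by
  rw [Fintype.card_congr (VC.equiv D l B r)]
  simp only [Fintype.card_sum, Fintype.card_prod, Fintype.card_fin, Fintype.card_bool,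
    Fintype.card_fun]
  ring

theorem card_eq : Fintype.card (VA D l B (l * B + 1) r) = Fintype.card (VC D l B r) := by
  rw [card_VA, card_VC]
  ring

theorem card_VA' : Fintype.card (VA D l B (l * B + 1) r) = D * (4 * (l * B) + 4 * 2 ^ l + 3) + r := by
  rw [card_eq, card_VC]

end card

section tips

variable {l B : ℕ} [NeZero l]

theorem exists_idx (c : BT l) : ∃ i : BT l → Fin l, ∀ a, a ≠ c → a (i a) ≠ c (i a) ∧ ∀ k, k < i a → a k = c k := by
  classical
  have h : ∀ a : BT l, ∃ i : Fin l, a ≠ c → a i ≠ c i ∧ ∀ k, k < i → a k = c k := by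
    intro a
    by_cases ha : a = c
    · exact ⟨0, fun h => absurd ha h⟩
    · obtain ⟨i, hi⟩ := exists_first ha
      exact ⟨i, fun _ => hi⟩
  choose i hi using h
  exact ⟨i, hi⟩

/-- The tips which are used neither by the ring nor by the leaves are in bijection with the garbage. -/
theorem exists_free (c : BT l) (i : BT l → Fin l) (hi : ∀ a, a ≠ c → a (i a) ≠ c (i a) ∧ ∀ k, k < i a → a k = c k) :
    ∃ φ : Fin (l * B + 1) → RP l B × Bool, Function.Injective φ ∧
      (∀ k p, φ k ≠ (p, c (bit p))) ∧ ∀ k a, a ≠ c → φ k ≠ (pos a (i a), a (i a)) := by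
  classical
  set ψ : RP l B ⊕ {a : BT l // a ≠ c} → RP l B × Bool := fun x => match x with
    | Sum.inl p => (p, c (bit p))
    | Sum.inr a => (pos a.1 (i a.1), a.1 (i a.1)) with hψ
  have hinj : Function.Injective ψ := by
    rintro (p | ⟨a, ha⟩) (q | ⟨b, hb⟩) h
    · simp only [hψ, Prod.mk.injEq] at h
      rw [h.1]
    · simp only [hψ, Prod.mk.injEq] at h
      obtain ⟨h1, h2⟩ := h
      rw [h1, bit_pos] at h2
      exact absurd h2.symm (hi b hb).1
    · simp only [hψ, Prod.mk.injEq] at h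
      obtain ⟨h1, h2⟩ := h
      rw [← h1, bit_pos] at h2
      exact absurd h2 (hi a ha).1
    · simp only [hψ, Prod.mk.injEq] at h
      have := pos_inj_first (hi a ha).1 (hi a ha).2 (hi b hb).1 (hi b hb).2 h.1
      subst this
      rfl
  have hcard : Fintype.card {x : RP l B × Bool // x ∉ Set.range ψ} = l * B + 1 := by
    rw [Fintype.card_subtype_compl]
    have h1 : Fintype.card {x // x ∈ Set.range ψ} = Fintype.card (RP l B ⊕ {a : BT l // a ≠ c}) :=
      (Fintype.card_congr (Equiv.ofInjective ψ hinj)).symm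
    rw [h1]
    have h2 : Fintype.card {a : BT l // a ≠ c} = 2 ^ l - 1 := by
      rw [Fintype.card_subtype_compl]
      simp
    have h3 : 1 ≤ 2 ^ l := Nat.one_le_two_pow
    simp only [Fintype.card_sum, Fintype.card_prod, Fintype.card_fin, Fintype.card_bool,
      Fintype.card_fun, h2]
    omega
  let e : Fin (l * B + 1) ≃ {x : RP l B × Bool // x ∉ Set.range ψ} :=
    (Fintype.equivFinOfCardEq hcard).symm
  refine ⟨fun k => (e k).1, Subtype.val_injective.comp e.injective, ?_, ?_⟩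
  · intro k p h
    exact (e k).2 ⟨Sum.inl p, h.symm⟩
  · intro k a ha h
    exact (e k).2 ⟨Sum.inr ⟨a, ha⟩, h.symm⟩

end tips

variable {D l B r : ℕ} [NeZero l]

/-- the kinds of triples allowed in the matching of the choice `c` -/
def Good (c : HB D → BT l) : Tri D l B (l * B + 1) r → Prop
  | .X h p e => e = c h (bit p)
  | .Y b a a' => a = c (b, false) ∧ a' = c (b, true)
  | _ => True

theorem exists_cover (c : HB D → BT l) : ∃ F : VA D l B (l * B + 1) r → Tri D l B (l * B + 1) r,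
    (∀ x, (tri (F x)).1 = x) ∧ Function.Bijective (fun x => (tri (F x)).2.1) ∧
    Function.Bijective (fun x => (tri (F x)).2.2) ∧ ∀ x, Good c (F x) := by
  classical
  choose i hi using fun h => exists_idx (c h)
  choose φ hφ1 hφ2 hφ3 using fun h => exists_free (B := B) (c h) (i h) (hi h)
  have hbit : ∀ p : RP l B, bit (nxt.symm p) = bit p := by
    intro p
    rw [← bit_nxt (nxt.symm p), Equiv.apply_symm_apply]
  set pr : HB D → RP l B → RP l B := fun h p => if c h (bit p) = true then nxt.symm p else p with hpr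
  have hprbit : ∀ h p, bit (pr h p) = bit p := by
    intro h p
    simp only [hpr]
    split_ifs
    · exact hbit p
    · rfl
  have hprinj : ∀ h p q, pr h p = pr h q → p = q := by
    intro h p q hpq
    have h1 : bit p = bit q := by rw [← hprbit h p, ← hprbit h q, hpq]
    simp only [hpr, h1] at hpq
    split_ifs at hpq
    · exact nxt.symm.injective hpq
    · exact hpq
  let F : VA D l B (l * B + 1) r → Tri D l B (l * B + 1) r := fun x => match x with
    | .core h p => .X h (pr h p) (c h (bit p))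
    | .leaf (b, false) a => if a = c (b, false) then .Y b (c (b, false)) (c (b, true)) else .L (b, false) a (i (b, false) a)
    | .leaf (b, true) a => if a = c (b, true) then .F (b, true) a else .L (b, true) a (i (b, true) a)
    | .garb h k => .G h k (φ h k).1 (φ h k).2
    | .fil b => .F (b, false) (c (b, false))
    | .dum x => .U x
  have hF1 : ∀ x, (tri (F x)).1 = x := by
    intro x
    rcases x with ⟨h, p⟩ | ⟨⟨b, s⟩, a⟩ | ⟨h, k⟩ | b | x
    · simp only [F, tri, hpr]
      by_cases hc : c h (bit p) = true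
      · simp [hc]
      · rw [Bool.not_eq_true] at hc
        simp [hc]
    · cases s
      · by_cases ha : a = c (b, false)
        · subst ha
          simp [F, tri]
        · simp [F, tri, ha]
      · by_cases ha : a = c (b, true)
        · subst ha
          simp [F, tri]
        · simp [F, tri, ha]
    · simp [F, tri]
    · simp [F, tri]
    · simp [F, tri]
  have hB1 : ∀ h p, (tri (F (.core h p))).2.1 = .core h (pr h p) := fun h p => rfl
  have hB2 : ∀ b, (tri (F (.leaf (b, false) (c (b, false))))).2.1 = .leaf (b, true) (c (b, true)) := by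
    intro b
    simp [F, tri]
  have hB3 : ∀ b, (tri (F (.leaf (b, true) (c (b, true))))).2.1 = .fil b := by
    intro b
    simp [F, tri]
  have hB4 : ∀ h a, a ≠ c h → (tri (F (.leaf h a))).2.1 = .leaf h a := by
    rintro ⟨b, _ | _⟩ a ha
    · simp [F, tri, ha]
    · simp [F, tri, ha]
  have hB5 : ∀ h k, (tri (F (.garb h k))).2.1 = .garb h k := fun h k => rfl
  have hB6 : ∀ b, (tri (F (.fil b))).2.1 = .leaf (b, false) (c (b, false)) := fun b => rfl
  have hB7 : ∀ x, (tri (F (.dum x))).2.1 = .dum x := fun x => rfl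
  have hC1 : ∀ h p, (tri (F (.core h p))).2.2 = .tip h (pr h p) (c h (bit p)) := fun h p => rfl
  have hC2 : ∀ b, (tri (F (.leaf (b, false) (c (b, false))))).2.2 = .gam b := by
    intro b
    simp [F, tri]
  have hC3 : ∀ b, (tri (F (.leaf (b, true) (c (b, true))))).2.2 = .fc (b, true) := by
    intro b
    simp [F, tri]
  have hC4 : ∀ h a, a ≠ c h → (tri (F (.leaf h a))).2.2 = .tip h (pos a (i h a)) (a (i h a)) := by
    rintro ⟨b, _ | _⟩ a ha
    · simp [F, tri, ha]
    · simp [F, tri, ha]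
  have hC5 : ∀ h k, (tri (F (.garb h k))).2.2 = .tip h (φ h k).1 (φ h k).2 := fun h k => rfl
  have hC6 : ∀ b, (tri (F (.fil b))).2.2 = .fc (b, false) := fun b => rfl
  have hC7 : ∀ x, (tri (F (.dum x))).2.2 = .dum x := fun x => rfl
  have view : ∀ x : VA D l B (l * B + 1) r, (∃ h p, x = .core h p) ∨ (∃ b, x = .leaf (b, false) (c (b, false))) ∨
      (∃ b, x = .leaf (b, true) (c (b, true))) ∨ (∃ h a, a ≠ c h ∧ x = .leaf h a) ∨
      (∃ h k, x = .garb h k) ∨ (∃ b, x = .fil b) ∨ ∃ y, x = .dum y := by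
    intro x
    rcases x with ⟨h, p⟩ | ⟨⟨b, s⟩, a⟩ | ⟨h, k⟩ | b | x
    · exact Or.inl ⟨h, p, rfl⟩
    · by_cases ha : a = c (b, s)
      · subst ha
        cases s
        · exact Or.inr (Or.inl ⟨b, rfl⟩)
        · exact Or.inr (Or.inr (Or.inl ⟨b, rfl⟩))
      · exact Or.inr (Or.inr (Or.inr (Or.inl ⟨_, a, ha, rfl⟩)))
    · exact Or.inr (Or.inr (Or.inr (Or.inr (Or.inl ⟨h, k, rfl⟩))))
    · exact Or.inr (Or.inr (Or.inr (Or.inr (Or.inr (Or.inl ⟨b, rfl⟩)))))
    · exact Or.inr (Or.inr (Or.inr (Or.inr (Or.inr (Or.inr ⟨x, rfl⟩)))))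
  have kCL : ∀ h p a, a ≠ c h → pr h p = pos a (i h a) → c h (bit p) = a (i h a) → False := by
    intro h p a ha h1 h2
    have h3 : bit p = i h a := by rw [← hprbit h p, h1, bit_pos]
    rw [h3] at h2
    exact (hi h a ha).1 h2.symm
  have kCG : ∀ h p k, pr h p = (φ h k).1 → c h (bit p) = (φ h k).2 → False := by
    intro h p k h1 h2
    apply hφ2 h k (pr h p)
    rw [hprbit]
    exact Prod.ext h1.symm h2.symm
  have kLG : ∀ h a k, a ≠ c h → pos a (i h a) = (φ h k).1 → a (i h a) = (φ h k).2 → False := by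
    intro h a k ha h1 h2
    apply hφ3 h k a ha
    exact Prod.ext h1.symm h2.symm
  refine ⟨F, hF1, ?_, ?_, ?_⟩
  · apply Finite.injective_iff_bijective.1
    intro x y hxy
    simp only at hxy
    rcases view x with ⟨h, p, rfl⟩ | ⟨b, rfl⟩ | ⟨b, rfl⟩ | ⟨h, a, ha, rfl⟩ | ⟨h, k, rfl⟩ | ⟨b, rfl⟩ | ⟨z, rfl⟩ <;>
    rcases view y with ⟨h', p', rfl⟩ | ⟨b', rfl⟩ | ⟨b', rfl⟩ | ⟨h', a', ha', rfl⟩ | ⟨h', k', rfl⟩ | ⟨b', rfl⟩ | ⟨z', rfl⟩
    · rw [hB1, hB1, VA.core.injEq] at hxy
      obtain ⟨rfl, h2⟩ := hxy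
      rw [hprinj _ _ _ h2]
    · rw [hB1, hB2] at hxy
      cases hxy
    · rw [hB1, hB3] at hxy
      cases hxy
    · rw [hB1, hB4 _ _ ha'] at hxy
      cases hxy
    · rw [hB1, hB5] at hxy
      cases hxy
    · rw [hB1, hB6] at hxy
      cases hxy
    · rw [hB1, hB7] at hxy
      cases hxy
    · rw [hB2, hB1] at hxy
      cases hxy
    · rw [hB2, hB2, VA.leaf.injEq] at hxy
      have : b = b' := (Prod.mk.inj hxy.1).1
      rw [this]
    · rw [hB2, hB3] at hxy
      cases hxy
    · rw [hB2, hB4 _ _ ha', VA.leaf.injEq] at hxy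
      obtain ⟨rfl, h2⟩ := hxy
      exact absurd h2.symm ha'
    · rw [hB2, hB5] at hxy
      cases hxy
    · rw [hB2, hB6, VA.leaf.injEq] at hxy
      have := (Prod.mk.inj hxy.1).2
      cases this
    · rw [hB2, hB7] at hxy
      cases hxy
    · rw [hB3, hB1] at hxy
      cases hxy
    · rw [hB3, hB2] at hxy
      cases hxy
    · rw [hB3, hB3, VA.fil.injEq] at hxy
      rw [hxy]
    · rw [hB3, hB4 _ _ ha'] at hxy
      cases hxy
    · rw [hB3, hB5] at hxy
      cases hxy
    · rw [hB3, hB6] at hxy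
      cases hxy
    · rw [hB3, hB7] at hxy
      cases hxy
    · rw [hB4 _ _ ha, hB1] at hxy
      cases hxy
    · rw [hB4 _ _ ha, hB2, VA.leaf.injEq] at hxy
      obtain ⟨rfl, h2⟩ := hxy
      exact absurd h2 ha
    · rw [hB4 _ _ ha, hB3] at hxy
      cases hxy
    · rw [hB4 _ _ ha, hB4 _ _ ha'] at hxy
      exact hxy
    · rw [hB4 _ _ ha, hB5] at hxy
      cases hxy
    · rw [hB4 _ _ ha, hB6, VA.leaf.injEq] at hxy
      obtain ⟨rfl, h2⟩ := hxy
      exact absurd h2 ha
    · rw [hB4 _ _ ha, hB7] at hxy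
      cases hxy
    · rw [hB5, hB1] at hxy
      cases hxy
    · rw [hB5, hB2] at hxy
      cases hxy
    · rw [hB5, hB3] at hxy
      cases hxy
    · rw [hB5, hB4 _ _ ha'] at hxy
      cases hxy
    · rw [hB5, hB5] at hxy
      exact hxy
    · rw [hB5, hB6] at hxy
      cases hxy
    · rw [hB5, hB7] at hxy
      cases hxy
    · rw [hB6, hB1] at hxy
      cases hxy
    · rw [hB6, hB2, VA.leaf.injEq] at hxy
      have := (Prod.mk.inj hxy.1).2
      cases this
    · rw [hB6, hB3] at hxy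
      cases hxy
    · rw [hB6, hB4 _ _ ha', VA.leaf.injEq] at hxy
      obtain ⟨rfl, h2⟩ := hxy
      exact absurd h2.symm ha'
    · rw [hB6, hB5] at hxy
      cases hxy
    · rw [hB6, hB6, VA.leaf.injEq] at hxy
      have : b = b' := (Prod.mk.inj hxy.1).1
      rw [this]
    · rw [hB6, hB7] at hxy
      cases hxy
    · rw [hB7, hB1] at hxy
      cases hxy
    · rw [hB7, hB2] at hxy
      cases hxy
    · rw [hB7, hB3] at hxy
      cases hxy
    · rw [hB7, hB4 _ _ ha'] at hxy
      cases hxy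
    · rw [hB7, hB5] at hxy
      cases hxy
    · rw [hB7, hB6] at hxy
      cases hxy
    · rw [hB7, hB7] at hxy
      exact hxy
  · rw [Fintype.bijective_iff_injective_and_card]
    refine ⟨?_, card_eq D l B r⟩
    intro x y hxy
    simp only at hxy
    rcases view x with ⟨h, p, rfl⟩ | ⟨b, rfl⟩ | ⟨b, rfl⟩ | ⟨h, a, ha, rfl⟩ | ⟨h, k, rfl⟩ | ⟨b, rfl⟩ | ⟨z, rfl⟩ <;>
    rcases view y with ⟨h', p', rfl⟩ | ⟨b', rfl⟩ | ⟨b', rfl⟩ | ⟨h', a', ha', rfl⟩ | ⟨h', k', rfl⟩ | ⟨b', rfl⟩ | ⟨z', rfl⟩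
    · rw [hC1, hC1, VC.tip.injEq] at hxy
      obtain ⟨rfl, h2, -⟩ := hxy
      rw [hprinj _ _ _ h2]
    · rw [hC1, hC2] at hxy
      cases hxy
    · rw [hC1, hC3] at hxy
      cases hxy
    · rw [hC1, hC4 _ _ ha', VC.tip.injEq] at hxy
      obtain ⟨rfl, h2, h3⟩ := hxy
      exact (kCL _ _ _ ha' h2 h3).elim
    · rw [hC1, hC5, VC.tip.injEq] at hxy
      obtain ⟨rfl, h2, h3⟩ := hxy
      exact (kCG _ _ _ h2 h3).elim
    · rw [hC1, hC6] at hxy
      cases hxy
    · rw [hC1, hC7] at hxy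
      cases hxy
    · rw [hC2, hC1] at hxy
      cases hxy
    · rw [hC2, hC2, VC.gam.injEq] at hxy
      rw [hxy]
    · rw [hC2, hC3] at hxy
      cases hxy
    · rw [hC2, hC4 _ _ ha'] at hxy
      cases hxy
    · rw [hC2, hC5] at hxy
      cases hxy
    · rw [hC2, hC6] at hxy
      cases hxy
    · rw [hC2, hC7] at hxy
      cases hxy
    · rw [hC3, hC1] at hxy
      cases hxy
    · rw [hC3, hC2] at hxy
      cases hxy
    · rw [hC3, hC3, VC.fc.injEq] at hxy
      have : b = b' := (Prod.mk.inj hxy).1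
      rw [this]
    · rw [hC3, hC4 _ _ ha'] at hxy
      cases hxy
    · rw [hC3, hC5] at hxy
      cases hxy
    · rw [hC3, hC6, VC.fc.injEq] at hxy
      have := (Prod.mk.inj hxy).2
      cases this
    · rw [hC3, hC7] at hxy
      cases hxy
    · rw [hC4 _ _ ha, hC1, VC.tip.injEq] at hxy
      obtain ⟨rfl, h2, h3⟩ := hxy
      exact (kCL _ _ _ ha h2.symm h3.symm).elim
    · rw [hC4 _ _ ha, hC2] at hxy
      cases hxy
    · rw [hC4 _ _ ha, hC3] at hxy
      cases hxy
    · rw [hC4 _ _ ha, hC4 _ _ ha', VC.tip.injEq] at hxy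
      obtain ⟨rfl, h2, -⟩ := hxy
      have := pos_inj_first (hi _ a ha).1 (hi _ a ha).2 (hi _ a' ha').1 (hi _ a' ha').2 h2
      rw [this]
    · rw [hC4 _ _ ha, hC5, VC.tip.injEq] at hxy
      obtain ⟨rfl, h2, h3⟩ := hxy
      exact (kLG _ _ _ ha h2 h3).elim
    · rw [hC4 _ _ ha, hC6] at hxy
      cases hxy
    · rw [hC4 _ _ ha, hC7] at hxy
      cases hxy
    · rw [hC5, hC1, VC.tip.injEq] at hxy
      obtain ⟨rfl, h2, h3⟩ := hxy
      exact (kCG _ _ _ h2.symm h3.symm).elim
    · rw [hC5, hC2] at hxy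
      cases hxy
    · rw [hC5, hC3] at hxy
      cases hxy
    · rw [hC5, hC4 _ _ ha', VC.tip.injEq] at hxy
      obtain ⟨rfl, h2, h3⟩ := hxy
      exact (kLG _ _ _ ha' h2.symm h3.symm).elim
    · rw [hC5, hC5, VC.tip.injEq] at hxy
      obtain ⟨rfl, h2, h3⟩ := hxy
      rw [hφ1 _ (Prod.ext h2 h3)]
    · rw [hC5, hC6] at hxy
      cases hxy
    · rw [hC5, hC7] at hxy
      cases hxy
    · rw [hC6, hC1] at hxy
      cases hxy
    · rw [hC6, hC2] at hxy
      cases hxy
    · rw [hC6, hC3, VC.fc.injEq] at hxy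
      have := (Prod.mk.inj hxy).2
      cases this
    · rw [hC6, hC4 _ _ ha'] at hxy
      cases hxy
    · rw [hC6, hC5] at hxy
      cases hxy
    · rw [hC6, hC6, VC.fc.injEq] at hxy
      have : b = b' := (Prod.mk.inj hxy).1
      rw [this]
    · rw [hC6, hC7] at hxy
      cases hxy
    · rw [hC7, hC1] at hxy
      cases hxy
    · rw [hC7, hC2] at hxy
      cases hxy
    · rw [hC7, hC3] at hxy
      cases hxy
    · rw [hC7, hC4 _ _ ha'] at hxy
      cases hxy
    · rw [hC7, hC5] at hxy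
      cases hxy
    · rw [hC7, hC6] at hxy
      cases hxy
    · rw [hC7, hC7, VC.dum.injEq] at hxy
      rw [hxy]
  · intro x
    rcases x with ⟨h, p⟩ | ⟨⟨b, s⟩, a⟩ | ⟨h, k⟩ | b | x
    · simp [F, Good, hprbit]
    · cases s
      · by_cases ha : a = c (b, false)
        · simp [F, Good, ha]
        · simp [F, Good, ha]
      · by_cases ha : a = c (b, true)
        · simp [F, Good, ha]
        · simp [F, Good, ha]
    · simp [F, Good]
    · simp [F, Good]
    · simp [F, Good]

end Pool.TDM
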