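import Mathlib

/-!
# Numbers for gadgets of linear size with bits (3-dimensional matching)
-/

set_option autoImplicit false

namespace Pool.TDM

open Finset Real

theorem sum_choose_le (m D : ℕ) (x y : ℝ) (hD : 1 ≤ D) (hDm : D < m) (hx : 0 ≤ x) (hxy : m * x ≤ y)
    (hDy : (D : ℝ) ≤ y) :
    ∑ j ∈ range (D + 1), ((m - D - 1 + j).choose j : ℝ) * x ^ j ≤ (exp 1 * y / D) ^ D := by
  have hD0 : (0 : ℝ) < D := by exact_mod_cast hD
  have hy0 : 0 ≤ y := hD0.le.trans hDy
  have h1 : ∀ j ∈ range (D + 1), ((m - D - 1 + j).choose j : ℝ) * x ^ j ≤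
      (y / D) ^ D * ((D : ℝ) ^ j / (j.factorial : ℝ)) := by
    intro j hj
    have hjD : j ≤ D := Nat.lt_succ_iff.1 (Finset.mem_range.1 hj)
    have h2 : ((m - D - 1 + j).choose j : ℝ) ≤ (m : ℝ) ^ j / (j.factorial : ℝ) := by
      refine le_trans ?_ (Nat.choose_le_pow_div (α := ℝ) j m)
      exact_mod_cast Nat.choose_le_choose j (by omega)
    have hf : (0 : ℝ) < (j.factorial : ℝ) := by exact_mod_cast Nat.factorial_pos j
    calc ((m - D - 1 + j).choose j : ℝ) * x ^ j ≤ (m : ℝ) ^ j / (j.factorial : ℝ) * x ^ j := by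
          gcongr
      _ = (m * x) ^ j / (j.factorial : ℝ) := by rw [mul_pow]; ring
      _ ≤ y ^ j / (j.factorial : ℝ) := by
          gcongr
      _ = (y / D) ^ j * ((D : ℝ) ^ j / (j.factorial : ℝ)) := by
          rw [div_pow]
          field_simp
      _ ≤ (y / D) ^ D * ((D : ℝ) ^ j / (j.factorial : ℝ)) := by
          gcongr
          rw [le_div_iff₀ hD0]
          linarith
  calc ∑ j ∈ range (D + 1), ((m - D - 1 + j).choose j : ℝ) * x ^ j
      ≤ ∑ j ∈ range (D + 1), (y / D) ^ D * ((D : ℝ) ^ j / (j.factorial : ℝ)) := Finset.sum_le_sum h1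
    _ = (y / D) ^ D * ∑ j ∈ range (D + 1), (D : ℝ) ^ j / (j.factorial : ℝ) := by rw [Finset.mul_sum]
    _ ≤ (y / D) ^ D * exp D := by
        gcongr
        exact Real.sum_le_exp_of_nonneg hD0.le _
    _ = (exp 1 * y / D) ^ D := by
        rw [mul_div_assoc, mul_pow, ← Real.exp_nat_mul, mul_one, mul_comm]

/-- one step: if `2 ^ l` is large compared with `(m / n) l log (2 l)` then `r ≥ e ^ (2 D)` -/
theorem num_step (n m r D l B : ℕ) (hD : 1 ≤ D) (hl : 1 ≤ l) (hB : 1 ≤ B) (hDm : D < m)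
    (hBl : (2 : ℝ) ^ l ≤ l * B) (hDn : (n : ℝ) ≤ 30 * 2 ^ l * D)
    (hT : 300 * (m : ℝ) * (l * log (2 * l)) ≤ n * 2 ^ l) (hT10 : (10 : ℝ) ≤ 2 ^ l)
    (H : ∀ q : ℝ, 0 < q → q < 1 → (2 - q ^ B) ^ (2 * D * l) ≤
      r * (∑ j ∈ range (D + 1), ((m - D - 1 + j).choose j : ℝ) * (1 - q) ^ j) ^ 2) :
    exp (2 * D) ≤ r := by
  have hl0 : (0 : ℝ) < l := by exact_mod_cast hl
  have hl1 : (1 : ℝ) ≤ l := by exact_mod_cast hl
  have hB0 : (0 : ℝ) < B := by exact_mod_cast hB
  have hD0 : (0 : ℝ) < D := by exact_mod_cast hD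
  have hlog : 0 < log (2 * l) := Real.log_pos (by linarith)
  set T : ℝ := 2 ^ l with hTdef
  have hTpos : 0 < T := by positivity
  set q : ℝ := exp (-(log (2 * l) / B)) with hq
  have hq0 : 0 < q := exp_pos _
  have hq1 : q < 1 := by
    rw [hq, Real.exp_lt_one_iff]
    have : 0 < log (2 * l) / B := by positivity
    linarith
  have hqB : q ^ B = 1 / (2 * l) := by
    rw [hq, ← Real.exp_nat_mul]
    have : (B : ℝ) * -(log (2 * l) / B) = -log (2 * l) := by field_simp
    rw [this, Real.exp_neg, Real.exp_log (by positivity), one_div]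
  have h1q : 0 ≤ 1 - q := by linarith
  have h1q' : 1 - q ≤ l * log (2 * l) / T := by
    have h1 : 1 - q ≤ log (2 * l) / B := by
      have := Real.add_one_le_exp (-(log (2 * l) / B))
      linarith
    refine h1.trans ?_
    rw [div_le_div_iff₀ hB0 hTpos]
    nlinarith [mul_le_mul_of_nonneg_left hBl hlog.le]
  have he2 : exp 1 * exp 1 ≤ 7.4 := by
    have := Real.exp_one_lt_d9
    have h0 := Real.exp_pos 1
    nlinarith
  have he0 := Real.exp_pos 1
  set y : ℝ := 3 / 4 * T * D / (exp 1 * exp 1) with hy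
  have hDy : (D : ℝ) ≤ y := by
    rw [hy, le_div_iff₀ (by positivity)]
    nlinarith
  have hmy : m * (1 - q) ≤ y := by
    have hm0 : (0 : ℝ) ≤ m := Nat.cast_nonneg _
    have h2 : (m : ℝ) * (1 - q) ≤ m * (l * log (2 * l) / T) := mul_le_mul_of_nonneg_left h1q' hm0
    refine h2.trans ?_
    have h3 : (m : ℝ) * (l * log (2 * l)) ≤ n * T / 300 := by
      rw [le_div_iff₀ (by norm_num)]
      linarith
    have h4 : (m : ℝ) * (l * log (2 * l) / T) ≤ n / 300 := by
      rw [← mul_div_assoc, div_le_iff₀ hTpos]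
      linarith
    refine h4.trans ?_
    rw [hy, div_le_div_iff₀ (by norm_num) (by positivity)]
    have h5 : (n : ℝ) * (exp 1 * exp 1) ≤ 30 * T * D * 7.4 := by
      have hn0 : (0 : ℝ) ≤ n := Nat.cast_nonneg _
      calc (n : ℝ) * (exp 1 * exp 1) ≤ n * 7.4 := mul_le_mul_of_nonneg_left he2 hn0
        _ ≤ 30 * T * D * 7.4 := by nlinarith
    nlinarith [mul_pos hTpos hD0]
  have hsum := sum_choose_le m D (1 - q) y hD hDm h1q hmy hDy
  have hS0 : 0 ≤ ∑ j ∈ range (D + 1), ((m - D - 1 + j).choose j : ℝ) * (1 - q) ^ j :=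
    Finset.sum_nonneg fun j _ => by positivity
  have hH := H q hq0 hq1
  have hey : exp 1 * y / D = 3 / 4 * T / exp 1 := by
    rw [hy]
    field_simp
  rw [hey] at hsum
  have h6 : (3 / 4 * T) ^ (2 * D) ≤ (2 - q ^ B) ^ (2 * D * l) := by
    have h7 : 3 / 4 * T ≤ (2 - q ^ B) ^ l := by
      rw [hqB]
      have h8 : (1 : ℝ) - l * (1 / (4 * l)) ≤ (1 - 1 / (4 * l)) ^ l := by
        have h9 := one_add_mul_le_pow (a := -(1 / (4 * (l : ℝ)))) (by
          have : 1 / (4 * (l : ℝ)) ≤ 1 := by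
            rw [div_le_one (by positivity)]
            linarith
          linarith) l
        have h10 : (1 : ℝ) + l * -(1 / (4 * l)) = 1 - l * (1 / (4 * l)) := by ring
        have h11 : (1 : ℝ) + -(1 / (4 * l)) = 1 - 1 / (4 * l) := by ring
        rw [h10, h11] at h9
        exact h9
      have h12 : (1 : ℝ) - l * (1 / (4 * l)) = 3 / 4 := by
        field_simp
        norm_num
      rw [h12] at h8
      have h13 : (2 : ℝ) - 1 / (2 * l) = 2 * (1 - 1 / (4 * l)) := by
        field_simp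
        ring
      rw [h13, mul_pow, hTdef]
      nlinarith [pow_pos (show (0 : ℝ) < 2 by norm_num) l]
    calc (3 / 4 * T) ^ (2 * D) ≤ ((2 - q ^ B) ^ l) ^ (2 * D) := by
          gcongr
      _ = (2 - q ^ B) ^ (2 * D * l) := by rw [← pow_mul, mul_comm l]
  have h14 : (3 / 4 * T) ^ (2 * D) ≤ r * ((3 / 4 * T / exp 1) ^ D) ^ 2 := by
    refine h6.trans (hH.trans ?_)
    have : (0 : ℝ) ≤ r := Nat.cast_nonneg _
    gcongr
  have h15 : ((3 / 4 * T / exp 1) ^ D) ^ 2 = (3 / 4 * T) ^ (2 * D) / exp (2 * D) := by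
    rw [← pow_mul, mul_comm D 2, div_pow, ← Real.exp_nat_mul]
    push_cast
    ring_nf
  rw [h15] at h14
  have h16 : 0 < (3 / 4 * T) ^ (2 * D) := by positivity
  rw [← mul_div_assoc, le_div_iff₀ (exp_pos _)] at h14
  have h17 : (3 / 4 * T) ^ (2 * D) * exp (2 * D) ≤ (3 / 4 * T) ^ (2 * D) * r := by linarith
  exact le_of_mul_le_mul_left h17 h16

/-- THE NUMBERS, for gadgets with at most `D (4 l B + 4 * 2 ^ l + 3)` vertices. -/
theorem numerics : ∃ c : ℝ, 0 < c ∧ ∀ n m r : ℕ, 1 ≤ n → n ≤ m → 1 ≤ r →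
    (∀ D l B : ℕ, 1 ≤ D → 1 ≤ l → 1 ≤ B → D < m → D * (4 * (l * B) + 4 * 2 ^ l + 3) ≤ n →
      ∀ q : ℝ, 0 < q → q < 1 → (2 - q ^ B) ^ (2 * D * l) ≤
        r * (∑ j ∈ range (D + 1), ((m - D - 1 + j).choose j : ℝ) * (1 - q) ^ j) ^ 2) →
    exp (c * n ^ 2 / (m * (1 + log (m / n)) ^ 2)) ≤ 2 * r := by
  refine ⟨log 2 / (30 * 2 ^ 15), by positivity, ?_⟩
  intro n m r hn hnm hr H
  have hn0 : (0 : ℝ) < n := by exact_mod_cast hn
  have hm0 : (0 : ℝ) < m := by exact_mod_cast (lt_of_lt_of_le hn hnm)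
  have hr1 : (1 : ℝ) ≤ r := by exact_mod_cast hr
  set μ : ℝ := m / n with hμ
  have hμ1 : 1 ≤ μ := by
    rw [hμ, le_div_iff₀ hn0, one_mul]
    exact_mod_cast hnm
  have hlogμ : 0 ≤ log μ := Real.log_nonneg hμ1
  set L : ℝ := 1 + log μ with hL
  have hL1 : 1 ≤ L := by linarith
  have hL0 : 0 < L := by linarith
  set W : ℝ := 2 ^ 15 * μ * L ^ 2 with hW
  have hLsq : 1 ≤ L ^ 2 := one_le_pow₀ hL1
  have hW15 : (2 : ℝ) ^ 15 ≤ W := by
    rw [hW]
    have : 1 ≤ μ * L ^ 2 := one_le_mul_of_one_le_of_one_le hμ1 hLsq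
    nlinarith
  have hW1 : 1 ≤ W := le_trans (by norm_num) hW15
  have hW0 : 0 < W := by linarith
  obtain ⟨l', hl'1, hl'2⟩ := exists_nat_pow_near hW1 (one_lt_two)
  set l := l' + 1 with hl
  set T : ℝ := 2 ^ l with hTdef
  have hTW : W < T := hl'2
  have hTW2 : T ≤ 2 * W := by
    rw [hTdef, hl, pow_succ]
    linarith
  have hT0 : 0 < T := by positivity
  -- size of l
  have hlog2 : 0.6931 < log 2 := by
    have := Real.log_two_gt_d9
    linarith
  have hlog2' : log 2 < 0.6932 := by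
    have := Real.log_two_lt_d9
    linarith
  have hlogL : log L ≤ L - 1 := Real.log_le_sub_one_of_pos hL0
  have hlL : (l : ℝ) ≤ 16 * L := by
    have h1 : (l' : ℝ) * log 2 ≤ log W := by
      rw [← Real.log_pow]
      exact Real.log_le_log (by positivity) hl'1
    have h2 : log W = 15 * log 2 + log μ + 2 * log L := by
      rw [hW, Real.log_mul (by positivity) (by positivity), Real.log_mul (by positivity) (by positivity),
        Real.log_pow, Real.log_pow]
      norm_num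
    have h3 : (l' : ℝ) * log 2 ≤ 15 * log 2 + 3 * (L - 1) := by
      rw [h2] at h1
      linarith
    have h4 : (l' : ℝ) ≤ 15 + 3 / log 2 * (L - 1) := by
      have h5 : (l' : ℝ) ≤ (15 * log 2 + 3 * (L - 1)) / log 2 := by
        rw [le_div_iff₀ (by linarith)]
        exact h3
      refine h5.trans (le_of_eq ?_)
      field_simp
    have h6 : 3 / log 2 ≤ 15 := by
      rw [div_le_iff₀ (by linarith)]
      linarith
    have h7 : 3 / log 2 * (L - 1) ≤ 15 * (L - 1) := mul_le_mul_of_nonneg_right h6 (by linarith)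
    rw [hl]
    push_cast
    linarith
  have hl1 : 1 ≤ l := by omega
  have hl1r : (1 : ℝ) ≤ l := by exact_mod_cast hl1
  have hlog2l : log (2 * l) ≤ 3.5 * L := by
    have h1 : log (2 * l) ≤ log (32 * L) := Real.log_le_log (by positivity) (by linarith)
    have h2 : log (32 * L) = 5 * log 2 + log L := by
      rw [Real.log_mul (by norm_num) hL0.ne', show (32 : ℝ) = 2 ^ 5 by norm_num, Real.log_pow]
      norm_num
    rw [h2] at h1
    have h3 : 5 * log 2 ≤ 3.5 := by linarith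
    linarith
  have hTbig : 300 * (m : ℝ) * (l * log (2 * l)) ≤ n * T := by
    have h1 : (l : ℝ) * log (2 * l) ≤ 16 * L * (3.5 * L) := by
      have : 0 ≤ log (2 * (l : ℝ)) := Real.log_nonneg (by linarith)
      gcongr
    have h2 : 300 * (m : ℝ) * (l * log (2 * l)) ≤ 300 * m * (16 * L * (3.5 * L)) := by gcongr
    have h3 : (n : ℝ) * W = 2 ^ 15 * m * L ^ 2 := by
      rw [hW, hμ]
      field_simp
    have h4 : (n : ℝ) * W ≤ n * T := mul_le_mul_of_nonneg_left hTW.le hn0.le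
    have h5 : 300 * (m : ℝ) * (16 * L * (3.5 * L)) ≤ n * W := by
      rw [h3]
      have : 0 ≤ (m : ℝ) * L ^ 2 := by positivity
      nlinarith
    linarith
  -- the exponent
  have hexp : log 2 / (30 * 2 ^ 15) * (n : ℝ) ^ 2 / (m * L ^ 2) = log 2 * n / (30 * W) := by
    rw [hW, hμ]
    field_simp
  rw [hexp]
  by_cases hsmall : (n : ℝ) < 15 * T
  · have h1 : log 2 * n / (30 * W) ≤ log 2 := by
      rw [div_le_iff₀ (by positivity)]
      have : (n : ℝ) ≤ 30 * W := by linarith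
      nlinarith
    calc exp (log 2 * n / (30 * W)) ≤ exp (log 2) := Real.exp_le_exp.2 h1
      _ = 2 := Real.exp_log (by norm_num)
      _ ≤ 2 * r := by linarith
  · push Not at hsmall
    have hcast : ((2 ^ l : ℕ) : ℝ) = T := by
      rw [hTdef]
      push_cast
      rfl
    have hnT : 15 * 2 ^ l ≤ n := by
      have : ((15 * 2 ^ l : ℕ) : ℝ) ≤ n := by
        push_cast
        rw [← hTdef]
        exact hsmall
      exact_mod_cast this
    set D := n / (15 * 2 ^ l) with hDdef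
    have hD1 : 1 ≤ D := by
      rw [hDdef, Nat.one_le_div_iff (by positivity)]
      exact hnT
    set B := 2 ^ l / l + 1 with hBdef
    have hB1 : 1 ≤ B := Nat.le_add_left 1 _
    have hlT : l < 2 ^ l := Nat.lt_two_pow_self
    have hlB : 2 ^ l ≤ l * B := by
      rw [hBdef]
      exact (Nat.lt_mul_div_succ (2 ^ l) (by omega)).le
    have hlB2 : l * B ≤ 2 * 2 ^ l := by
      rw [hBdef, mul_add, mul_one]
      have := Nat.mul_div_le (2 ^ l) l
      omega
    have h3T : 3 ≤ 3 * 2 ^ l := by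
      have : 1 ≤ 2 ^ l := Nat.one_le_two_pow
      omega
    have hDn : D * (4 * (l * B) + 4 * 2 ^ l + 3) ≤ n := by
      have h1 : 4 * (l * B) + 4 * 2 ^ l + 3 ≤ 15 * 2 ^ l := by omega
      calc D * (4 * (l * B) + 4 * 2 ^ l + 3) ≤ D * (15 * 2 ^ l) := Nat.mul_le_mul_left _ h1
        _ ≤ n := Nat.div_mul_le_self _ _
    have hDm : D < m := by
      have h1 : D * 15 ≤ n := by
        have h2 : 15 ≤ 4 * (l * B) + 4 * 2 ^ l + 3 ∨ 15 ≤ 15 * 2 ^ l := by
          right
          have : 1 ≤ 2 ^ l := Nat.one_le_two_pow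
          omega
        have h3 : D * (15 * 2 ^ l) ≤ n := Nat.div_mul_le_self _ _
        have h4 : D * 15 ≤ D * (15 * 2 ^ l) := by
          apply Nat.mul_le_mul_left
          have : 1 ≤ 2 ^ l := Nat.one_le_two_pow
          omega
        omega
      omega
    have hDn2 : (n : ℝ) ≤ 30 * 2 ^ l * D := by
      have h1 : n < (D + 1) * (15 * 2 ^ l) := by
        have := Nat.lt_div_mul_add (a := n) (b := 15 * 2 ^ l) (by positivity)
        rw [add_mul, one_mul]
        exact this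
      have h2 : n ≤ 30 * 2 ^ l * D := by
        have h3 : (D + 1) * (15 * 2 ^ l) ≤ (2 * D) * (15 * 2 ^ l) := by
          apply Nat.mul_le_mul_right
          omega
        calc n ≤ (2 * D) * (15 * 2 ^ l) := by omega
          _ = 30 * 2 ^ l * D := by ring
      exact_mod_cast h2
    have hmain := num_step n m r D l B hD1 hl1 hB1 hDm (by exact_mod_cast hlB) hDn2 hTbig
      (by
        have : (2 : ℝ) ^ 15 ≤ 2 ^ l := hW15.trans hTW.le
        exact le_trans (by norm_num) this) (H D l B hD1 hl1 hB1 hDm hDn)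
    have h1 : log 2 * n / (30 * W) ≤ 2 * D := by
      rw [div_le_iff₀ (by positivity)]
      have h2 : (n : ℝ) ≤ 30 * (2 * W) * D := by
        refine hDn2.trans ?_
        have hD0 : (0 : ℝ) ≤ D := Nat.cast_nonneg _
        gcongr
      have h3 : log 2 * n ≤ 1 * n := by
        apply mul_le_mul_of_nonneg_right _ hn0.le
        linarith
      linarith
    calc exp (log 2 * n / (30 * W)) ≤ exp (2 * D) := Real.exp_le_exp.2 h1
      _ ≤ r := hmain
      _ ≤ 2 * r := by linarith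

end Pool.TDM
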