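import Pool.Agent.Helper59.TDM.Main
import Pool.Agent.Helper59.TDM.Num

/-!
# Determinant sums for 3-dimensional matching: the theorem
-/

set_option autoImplicit false

namespace Pool.TDM

open MvPolynomial Pool.Agent.Helper76.CDET

/-- the complete set of triples has the property -/
theorem HasPM_univ (N : ℕ) : HasPM N (Set.univ : Set (Fin N × Fin N × Fin N)) :=
  ⟨1, 1, fun _ => Set.mem_univ _⟩

theorem final : ∃ c : ℝ, 0 < c ∧ ∀ (F : Type) [Field F] (Ya : Type) (N m r : ℕ), 1 ≤ N → N ≤ m →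
    ∀ f : MvPolynomial ((Fin N × Fin N × Fin N) ⊕ Ya) F,
    (∀ μ ∈ f.support, ∀ e, μ (Sum.inl e) ≤ 1) →
    (∀ S : Finset (Fin N × Fin N × Fin N), restr S f ≠ 0 ↔ HasPM N (S : Set (Fin N × Fin N × Fin N))) →
    ∀ (s : Fin r → ℕ) (A : ∀ i, Matrix (Fin (s i)) (Fin (s i)) (MvPolynomial ((Fin N × Fin N × Fin N) ⊕ Ya) F)),
    (∀ i, s i ≤ m) → (∀ i p q, ∀ μ ∈ (A i p q).support, ∑ e, μ (Sum.inl e) ≤ 1) →
    f = ∑ i, (A i).det →
    Real.exp (c * N ^ 2 / (m * (1 + Real.log (m / N)) ^ 2)) ≤ 2 * r := by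
  obtain ⟨c, hc, H⟩ := numerics
  refine ⟨c, hc, ?_⟩
  intro F _ Ya N m r hN hNm f hml hP s A hs hA hf
  have hr : 1 ≤ r := by
    by_contra hr
    have hr0 : r = 0 := by omega
    subst hr0
    rw [Finset.univ_eq_empty, Finset.sum_empty] at hf
    have h1 := (hP Finset.univ).2 (by simpa using HasPM_univ N)
    rw [hf] at h1
    exact h1 (by simp [restr])
  refine H N m r hN hNm hr ?_
  intro D l B _ hl _ hDm hDN q hq0 hq1
  exact main_real hl hDN f hml hP s hs A hA hf hDm q hq0 hq1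

end Pool.TDM
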