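import Mathlib

/-!
# The gadget for 3-dimensional matching

Finite combinatorics only.  `D` blocks, each with two half blocks; a half block stores `l` bits in `l` rings;
the state of ring `i` is forced to be bit `i` of the leaf which is taken by the triple `Y`.
-/

namespace Pool.TDM

/-- bit strings -/
abbrev BT (l : ℕ) := Fin l → Bool

/-- half blocks -/
abbrev HB (D : ℕ) := Fin D × Bool

/-- ring positions: `B` positions for each of the `l` rings and one extra position for every bit string -/
abbrev RP (l B : ℕ) := (Fin l × Fin B) ⊕ BT l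

/-- vertices of the first and of the second part -/
inductive VA (D l B G r : ℕ) : Type
  | core (h : HB D) (p : RP l B) : VA D l B G r
  | leaf (h : HB D) (a : BT l) : VA D l B G r
  | garb (h : HB D) (k : Fin G) : VA D l B G r
  | fil (b : Fin D) : VA D l B G r
  | dum (x : Fin r) : VA D l B G r

/-- vertices of the third part -/
inductive VC (D l B r : ℕ) : Type
  | tip (h : HB D) (p : RP l B) (e : Bool) : VC D l B r
  | fc (h : HB D) : VC D l B r
  | gam (b : Fin D) : VC D l B r
  | dum (x : Fin r) : VC D l B r

/-- the triples of the gadget -/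
inductive Tri (D l B G r : ℕ) : Type
  | X (h : HB D) (p : RP l B) (e : Bool) : Tri D l B G r
  | L (h : HB D) (a : BT l) (i : Fin l) : Tri D l B G r
  | F (h : HB D) (a : BT l) : Tri D l B G r
  | G (h : HB D) (k : Fin G) (p : RP l B) (e : Bool) : Tri D l B G r
  | U (x : Fin r) : Tri D l B G r
  | Y (b : Fin D) (a a' : BT l) : Tri D l B G r

/-- A permutation of a finite set whose cycles are the fibres of `bit`. -/
theorem exists_cyc {R I : Type*} [Finite R] (bit : R → I) :
    ∃ σ : Equiv.Perm R, (∀ p, bit (σ p) = bit p) ∧
      ∀ U : R → Prop, (∀ p, U p → U (σ p)) → ∀ p q, bit p = bit q → U p → U q := by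
  classical
  have key : ∀ i : I, ∃ f : Equiv.Perm {x : R // bit x = i},
      ∀ U : {x : R // bit x = i} → Prop, (∀ p, U p → U (f p)) → ∀ p q, U p → U q := by
    intro i
    have : Fintype {x : R // bit x = i} := Fintype.ofFinite _
    obtain ⟨f, hf, -⟩ := Finset.exists_cycleOn (Finset.univ : Finset {x : R // bit x = i})
    refine ⟨f, fun U hU p q hp => ?_⟩
    obtain ⟨n, -, hn⟩ := hf.exists_pow_eq (Finset.mem_univ p) (Finset.mem_univ q)
    rw [← hn]
    clear hn
    induction n with
    | zero => simpa using hp
    | succ n ih =>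
      rw [pow_succ', Equiv.Perm.mul_apply]
      exact hU _ ih
  choose f hf using key
  refine ⟨(Equiv.sigmaFiberEquiv bit).symm.trans
    ((Equiv.sigmaCongrRight f).trans (Equiv.sigmaFiberEquiv bit)), ?_, ?_⟩
  · intro p
    exact (f (bit p) ⟨p, rfl⟩).2
  · intro U hU p q hpq hp
    have h1 := hf (bit q) (fun x => U x.1) ?_ ⟨p, hpq⟩ ⟨q, rfl⟩ hp
    · exact h1
    · rintro ⟨x, hx⟩ hux
      have h2 := hU x hux
      have h3 : ((Equiv.sigmaFiberEquiv bit).symm.trans
        ((Equiv.sigmaCongrRight f).trans (Equiv.sigmaFiberEquiv bit))) x = (f (bit x) ⟨x, rfl⟩).1 := rfl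
      have h4 : ∀ (i : I) (hi : bit x = i), (f (bit x) ⟨x, rfl⟩).1 = (f i ⟨x, hi⟩).1 := by
        rintro i rfl
        rfl
      rw [h3, h4 _ hx] at h2
      exact h2

section bits

variable {l B : ℕ} [NeZero l]

/-- the ring of a position -/
noncomputable def bit (p : RP l B) : Fin l :=
  match p with
  | Sum.inl x => x.1
  | Sum.inr t => by
      classical
      exact if h : ∃ i : Fin l, t i = true ∧ ∀ k, k < i → t k = false then h.choose else 0

/-- the position of ring `i` at which leaf `a` is attached -/
def pos (a : BT l) (i : Fin l) : RP l B :=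
  Sum.inr fun k => if k < i then false else if k = i then true else a k

theorem bit_inl (x : Fin l × Fin B) : bit (Sum.inl x : RP l B) = x.1 := rfl

theorem bit_pos (a : BT l) (i : Fin l) : bit (pos a i : RP l B) = i := by
  classical
  have h : ∃ j : Fin l, (fun k => if k < i then false else if k = i then true else a k : BT l) j = true ∧
      ∀ k, k < j → (fun k => if k < i then false else if k = i then true else a k : BT l) k = false := by
    refine ⟨i, by simp, fun k hk => by simp [hk]⟩
  have h1 : bit (pos a i : RP l B) = h.choose := by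
    unfold bit pos
    simp only
    exact dif_pos h
  rw [h1]
  obtain ⟨h2, h3⟩ := h.choose_spec
  rcases lt_trichotomy h.choose i with h4 | h4 | h4
  · simp only [h4, if_true] at h2
    exact absurd h2 (by simp)
  · exact h4
  · have h5 := h3 i h4
    simp at h5

omit [NeZero l] in
theorem exists_first {a c : BT l} (h : a ≠ c) : ∃ i : Fin l, a i ≠ c i ∧ ∀ k, k < i → a k = c k := by
  classical
  have h1 : (Finset.univ.filter fun i : Fin l => a i ≠ c i).Nonempty := by
    by_contra h2
    rw [Finset.not_nonempty_iff_eq_empty] at h2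
    apply h
    funext i
    by_contra h3
    have : i ∈ (Finset.univ.filter fun i : Fin l => a i ≠ c i) := by simp [h3]
    rw [h2] at this
    simp at this
  refine ⟨(Finset.univ.filter fun i : Fin l => a i ≠ c i).min' h1, ?_, ?_⟩
  · have := Finset.min'_mem _ h1
    simpa using this
  · intro k hk
    by_contra h3
    have h4 : k ∈ (Finset.univ.filter fun i : Fin l => a i ≠ c i) := by simp [h3]
    have h5 := Finset.min'_le _ _ h4
    exact absurd hk (not_lt.2 h5)

theorem pos_inj_first {a a' c : BT l} {i i' : Fin l} (h : a i ≠ c i) (hk : ∀ k, k < i → a k = c k)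
    (h' : a' i' ≠ c i') (hk' : ∀ k, k < i' → a' k = c k)
    (hp : (pos a i : RP l B) = pos a' i') : a = a' := by
  have h1 : i = i' := by
    have := congrArg bit hp
    rwa [bit_pos, bit_pos] at this
  subst h1
  unfold pos at hp
  rw [Sum.inr.injEq] at hp
  funext k
  rcases lt_trichotomy k i with h2 | h2 | h2
  · rw [hk k h2, hk' k h2]
  · subst h2
    cases ha : a k <;> cases ha' : a' k <;> cases hc : c k <;> simp_all
  · have h3 := congrFun hp k
    simpa [not_lt.2 h2.le, h2.ne'] using h3

end bits

end Pool.TDM
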