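import Pool.Agent.Helper59.TDM.Emb
import Pool.Agent.Helper76.CDET.Real

/-!
# 3-dimensional matching: the main inequality
-/

set_option autoImplicit false

namespace Pool.TDM

open MvPolynomial Pool.Agent.Helper76.CDET

/-- triples which are neither variables `X` nor variables `Y` -/
def Free {D l B G r : ℕ} : Tri D l B G r → Prop
  | .X _ (Sum.inl _) _ => False
  | .Y _ _ _ => False
  | _ => True

theorem main_real {F Ya : Type} [Field F] {N D l B r m : ℕ} (hl : 1 ≤ l)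
    (hN : D * (4 * (l * B) + 4 * 2 ^ l + 3) ≤ N)
    (f : MvPolynomial ((Fin N × Fin N × Fin N) ⊕ Ya) F)
    (hml : ∀ μ ∈ f.support, ∀ e, μ (Sum.inl e) ≤ 1)
    (hP : ∀ S : Finset (Fin N × Fin N × Fin N), restr S f ≠ 0 ↔ HasPM N (S : Set (Fin N × Fin N × Fin N)))
    (s : Fin r → ℕ) (hs : ∀ i, s i ≤ m)
    (A : ∀ i, Matrix (Fin (s i)) (Fin (s i)) (MvPolynomial ((Fin N × Fin N × Fin N) ⊕ Ya) F))
    (hA : ∀ i p q, ∀ μ ∈ (A i p q).support, ∑ e, μ (Sum.inl e) ≤ 1)
    (hf : f = ∑ i, (A i).det) (hDm : D < m) (q : ℝ) (hq0 : 0 < q) (hq1 : q < 1) :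
    (2 - q ^ B) ^ (2 * D * l) ≤ r *
      (∑ j ∈ Finset.range (D + 1), (Nat.choose (m - D - 1 + j) j : ℝ) * (1 - q) ^ j) ^ 2 := by
  classical
  have : NeZero l := ⟨by omega⟩
  obtain ⟨t, ht, H1, H2⟩ := gadget D l B N hN
  refine machine_bits_real f hml (fun S => HasPM N (S : Set (Fin N × Fin N × Fin N))) hP
    (X := fun x => t (.X x.1.1 (Sum.inl (x.1.2, x.2.2)) x.2.1))
    (Y := fun y => t (.Y y.1 y.2.1 y.2.2))
    (Z := Finset.univ.filter fun e => ∃ g, Free g ∧ t g = e) ?_ ?_ ?_ ?_ ?_ s hs A hA hf hDm q hq0 hq1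
  · rintro (⟨⟨h, i⟩, e, j⟩ | ⟨b, a, a'⟩) (⟨⟨h2, i2⟩, e2, j2⟩ | ⟨b2, a2, a2'⟩) heq
    · have := ht heq
      simp only [Tri.X.injEq, Sum.inl.injEq, Prod.mk.injEq] at this
      obtain ⟨rfl, ⟨rfl, rfl⟩, rfl⟩ := this
      rfl
    · have := ht heq
      cases this
    · have := ht heq
      cases this
    · have := ht heq
      simp only [Tri.Y.injEq] at this
      obtain ⟨rfl, rfl, rfl⟩ := this
      rfl
  · rintro ⟨⟨h, i⟩, e, j⟩ hz
    rw [Finset.mem_filter] at hz
    obtain ⟨-, g, hg, he⟩ := hz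
    have := ht he
    subst this
    exact hg
  · rintro ⟨b, a, a'⟩ hz
    rw [Finset.mem_filter] at hz
    obtain ⟨-, g, hg, he⟩ := hz
    have := ht he
    subst this
    exact hg
  · intro c S hS hSe
    obtain ⟨h1, h2⟩ := H1 c (S : Set (Fin N × Fin N × Fin N)) (by
      intro x hx
      rcases hSe x hx with hz | ⟨⟨⟨h, i⟩, e, j⟩, rfl⟩ | ⟨b, rfl⟩
      · rw [Finset.mem_filter] at hz
        obtain ⟨-, g, hg, he⟩ := hz
        refine ⟨g, ?_, he⟩
        rcases g with ⟨h, p | p, e⟩ | ⟨h, a, i⟩ | ⟨h, a⟩ | ⟨h, k, p, e⟩ | x | ⟨b, a, a'⟩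
        · exact hg.elim
        · trivial
        · trivial
        · trivial
        · trivial
        · trivial
        · exact hg.elim
      · exact ⟨Tri.X h (Sum.inl (i, j)) e, trivial, rfl⟩
      · exact ⟨Tri.Y b (c (b, false)) (c (b, true)), ⟨rfl, rfl⟩, rfl⟩) hS
    refine ⟨fun h i j => ?_, fun b => ?_⟩
    · have := h2 h (Sum.inl (i, j))
      rw [bit_inl] at this
      exact Finset.mem_coe.1 this
    · exact Finset.mem_coe.1 (h1 b)
  · intro c
    obtain ⟨S, hS, hSg, -⟩ := H2 c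
    refine ⟨S.toFinset, ?_, ?_⟩
    · simpa using hS
    · intro e he
      rw [Set.mem_toFinset] at he
      obtain ⟨g, hg, rfl⟩ := hSg e he
      rcases g with ⟨h, p | p, e⟩ | ⟨h, a, i⟩ | ⟨h, a⟩ | ⟨h, k, p, e⟩ | x | ⟨b, a, a'⟩
      · right; left
        obtain ⟨i, j⟩ := p
        have hg' : e = c h i := hg
        subst hg'
        exact ⟨h, i, j, rfl⟩
      · left
        rw [Finset.mem_filter]
        exact ⟨Finset.mem_univ _, Tri.X h (Sum.inr p) e, trivial, rfl⟩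
      · left
        rw [Finset.mem_filter]
        exact ⟨Finset.mem_univ _, Tri.L h a i, trivial, rfl⟩
      · left
        rw [Finset.mem_filter]
        exact ⟨Finset.mem_univ _, Tri.F h a, trivial, rfl⟩
      · left
        rw [Finset.mem_filter]
        exact ⟨Finset.mem_univ _, Tri.G h k p e, trivial, rfl⟩
      · left
        rw [Finset.mem_filter]
        exact ⟨Finset.mem_univ _, Tri.U x, trivial, rfl⟩
      · right; right
        obtain ⟨rfl, rfl⟩ := hg
        exact ⟨b, rfl⟩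

end Pool.TDM
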